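import Pool.Agent.H606.AV.Stm5

set_option autoImplicit false

/-!
Project LF of helper606: upper bound of the average if it has few zeros near by (after
`Pool/Agent/H328/AV/Reg.lean`).
-/

open Complex Filter Topology Metric Set MeasureTheory

namespace Pool.Agent.H627.AV

open Pool.Agent.H606.AV

noncomputable section

theorem im_add (z : ℂ) (h : ℝ) : (z + I * h).im = z.im + h := by simp

theorem im_sub (z : ℂ) (h : ℝ) : (z - I * h).im = z.im - h := by simp

theorem norm_le_four (z : ℂ) (h : ℝ) (h0 : 0 < h) (h1 : h ≤ 1 / 2) (hz : z ∈ ball (-I) 1) :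
    ‖z + I * h‖ ≤ 4 ∧ ‖z - I * h‖ ≤ 4 := by
  have h2 : ‖z - -I‖ < 1 := mem_ball_iff_norm.mp hz
  have h3 : ‖I * (h : ℂ)‖ = h := by
    rw [norm_mul, norm_I, one_mul, norm_real, Real.norm_eq_abs, abs_of_pos h0]
  have h4 : ‖z‖ ≤ 2 := by
    calc ‖z‖ = ‖(z - -I) + -I‖ := by rw [sub_add_cancel]
      _ ≤ ‖z - -I‖ + ‖-I‖ := norm_add_le _ _
      _ ≤ 2 := by rw [norm_neg, norm_I]; linarith
  constructor
  · calc ‖z + I * h‖ ≤ ‖z‖ + ‖I * (h : ℂ)‖ := norm_add_le _ _
      _ ≤ 4 := by rw [h3]; linarith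
  · calc ‖z - I * h‖ ≤ ‖z‖ + ‖I * (h : ℂ)‖ := norm_sub_le _ _
      _ ≤ 4 := by rw [h3]; linarith

theorem re_im_bd (z : ℂ) (R : ℝ) (hz : z ∈ ball (-I) R) :
    |z.re| < R ∧ -1 - R < z.im ∧ z.im < -1 + R := by
  have h2 : ‖z - -I‖ < R := mem_ball_iff_norm.mp hz
  have h3 : |(z - -I).re| < R := (abs_re_le_norm _).trans_lt h2
  have h4 : |(z - -I).im| < R := (abs_im_le_norm _).trans_lt h2
  rw [sub_re, neg_re, I_re, neg_zero, sub_zero] at h3
  rw [sub_im, neg_im, I_im] at h4
  have h5 := abs_lt.mp h4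
  exact ⟨h3, by linarith, by linarith⟩

/-- bounds of the two terms at depth at least one half -/
theorem terms {f : ℂ → ℂ} {M lam h η : ℝ} (hL : LB f M lam (1 / 2) h η) (h0 : 0 < h)
    (h1 : h ≤ 1 / 2) (M0 : 0 < M) (lam1 : 1 ≤ lam) (z : ℂ) (hz : z ∈ ball (-I) 1)
    (hi : z.im ≤ -(1 / 2)) :
    M * Real.exp (lam * (-z.im + h) - η * lam) ≤ ‖f (z - I * h)‖ ∧
    ‖f (z - I * h)‖ ≤ M * Real.exp (lam * (-z.im + h) + η * lam) ∧
    ‖f (z + I * h)‖ ≤ M * Real.exp (lam * (-z.im) + η * lam) := by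
  obtain ⟨hn1, hn2⟩ := norm_le_four z h h0 h1 hz
  have e1 : |(z - I * h).im| = -z.im + h := by
    rw [im_sub, abs_of_neg (by linarith)]
    ring
  refine ⟨?_, ?_, ?_⟩
  · have := hL.low (z - I * h) hn2 (by rw [im_sub]; linarith)
    rwa [e1] at this
  · have := hL.up (z - I * h) hn2
    rwa [e1, max_eq_left (by linarith)] at this
  · refine (hL.up (z + I * h) hn1).trans ?_
    have e2 : max |(z + I * h).im| (1 / 2) ≤ -z.im := by
      rw [im_add, abs_of_nonpos (by linarith)]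
      exact max_le (by linarith) (by linarith)
    have e3 : lam * max |(z + I * h).im| (1 / 2) ≤ lam * -z.im :=
      mul_le_mul_of_nonneg_left e2 (by linarith)
    exact mul_le_mul_of_nonneg_left (Real.exp_le_exp.mpr (by linarith)) M0.le

/-- no zeros at depth at least one half -/
theorem nonvan {f : ℂ → ℂ} {M lam h η : ℝ} (hL : LB f M lam (1 / 2) h η) (h0 : 0 < h)
    (h1 : h ≤ 1 / 2) (M0 : 0 < M) (lam1 : 1 ≤ lam) (hη : 4 * (η * lam) ≤ lam * h)
    (z : ℂ) (hz : z ∈ ball (-I) 1) (hi : z.im ≤ -(1 / 2)) : Av f h z ≠ 0 := by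
  obtain ⟨t1, t2, t3⟩ := terms hL h0 h1 M0 lam1 z hz hi
  intro h6
  have h7 : f (z + I * h) = - f (z - I * h) := eq_neg_of_add_eq_zero_left h6
  rw [h7, norm_neg] at t3
  have h8 := t1.trans t3
  have h9 := le_of_mul_le_mul_left h8 M0
  have h10 := Real.exp_le_exp.mp h9
  have h11 : 0 < lam * h := mul_pos (by linarith) h0
  linarith

/-- the size of the average near `-I` -/
theorem near {f : ℂ → ℂ} {M lam h η : ℝ} (hL : LB f M lam (1 / 2) h η) (h0 : 0 < h)
    (h1 : h ≤ 1 / 2) (M0 : 0 < M) (lam1 : 1 ≤ lam) (hη : 4 * (η * lam) ≤ lam * h)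
    (lam2 : 1 ≤ η * lam) (z : ℂ) (hz : z ∈ ball (-I) (1 / 8)) :
    Real.exp (-(2 * (η * lam))) * (M * Real.exp (lam * h)) ≤
      ‖Av f h z‖ * Real.exp (lam * z.im) ∧
    ‖Av f h z‖ * Real.exp (lam * z.im) ≤
      Real.exp (2 * (η * lam)) * (M * Real.exp (lam * h)) := by
  obtain ⟨K, hK⟩ : ∃ K : ℝ, K = M * Real.exp (lam * h) := ⟨_, rfl⟩
  have K0 : 0 < K := by
    rw [hK]
    exact mul_pos M0 (Real.exp_pos _)
  have ex2 : 2 ≤ Real.exp (η * lam) := by
    have := Real.add_one_le_exp (η * lam)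
    linarith
  have hz1 : z ∈ ball (-I) 1 := ball_subset_ball (by norm_num) hz
  obtain ⟨-, -, h5⟩ := re_im_bd z _ hz
  have h6 : z.im ≤ -(1 / 2) := by linarith
  obtain ⟨t1, t2, t3⟩ := terms hL h0 h1 M0 lam1 z hz1 h6
  have k1 : ‖f (z - I * h)‖ - ‖f (z + I * h)‖ ≤ ‖Av f h z‖ := by
    have := norm_sub_le_norm_add (f (z - I * h)) (f (z + I * h))
    unfold Av
    rwa [add_comm (f (z + I * h))]
  have k2 : ‖Av f h z‖ ≤ ‖f (z + I * h)‖ + ‖f (z - I * h)‖ := norm_add_le _ _
  have E0 : 0 < Real.exp (lam * z.im) := Real.exp_pos _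
  have p1 : M * Real.exp (lam * (-z.im + h) - η * lam) * Real.exp (lam * z.im) =
      Real.exp (-(η * lam)) * K := by
    rw [hK, mul_assoc, ← Real.exp_add, mul_left_comm, ← Real.exp_add]
    ring_nf
  have p2 : M * Real.exp (lam * (-z.im + h) + η * lam) * Real.exp (lam * z.im) =
      Real.exp (η * lam) * K := by
    rw [hK, mul_assoc, ← Real.exp_add, mul_left_comm, ← Real.exp_add]
    ring_nf
  have p3 : M * Real.exp (lam * (-z.im) + η * lam) * Real.exp (lam * z.im) =
      Real.exp (η * lam - lam * h) * K := by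
    rw [hK, mul_assoc, ← Real.exp_add, mul_left_comm, ← Real.exp_add]
    ring_nf
  have q1 := mul_le_mul_of_nonneg_right t1 E0.le
  have q2 := mul_le_mul_of_nonneg_right t2 E0.le
  have q3 := mul_le_mul_of_nonneg_right t3 E0.le
  rw [p1] at q1
  rw [p2] at q2
  rw [p3] at q3
  have r1 : Real.exp (η * lam - lam * h) ≤ Real.exp (-(2 * (η * lam))) :=
    Real.exp_le_exp.mpr (by linarith)
  have r2 : Real.exp (-(η * lam)) = Real.exp (-(2 * (η * lam))) * Real.exp (η * lam) := by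
    rw [← Real.exp_add]
    ring_nf
  have r3 : Real.exp (2 * (η * lam)) = Real.exp (η * lam) * Real.exp (η * lam) := by
    rw [← Real.exp_add]
    ring_nf
  have r4 : Real.exp (-(2 * (η * lam))) ≤ 1 := Real.exp_le_one_iff.mpr (by linarith)
  have r5 : 0 < Real.exp (-(2 * (η * lam))) := Real.exp_pos _
  rw [← hK]
  constructor
  · have s2 : 2 * Real.exp (-(2 * (η * lam))) ≤ Real.exp (-(η * lam)) := by
      rw [r2]
      have := mul_le_mul_of_nonneg_left ex2 r5.le
      linarith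
    have s4 : 2 * Real.exp (-(2 * (η * lam))) * K ≤ Real.exp (-(η * lam)) * K :=
      mul_le_mul_of_nonneg_right s2 K0.le
    have s5 : Real.exp (η * lam - lam * h) * K ≤ Real.exp (-(2 * (η * lam))) * K :=
      mul_le_mul_of_nonneg_right r1 K0.le
    have s6 : (‖f (z - I * h)‖ - ‖f (z + I * h)‖) * Real.exp (lam * z.im) ≤
        ‖Av f h z‖ * Real.exp (lam * z.im) := mul_le_mul_of_nonneg_right k1 E0.le
    rw [sub_mul] at s6
    linarith
  · have s2 : 1 + Real.exp (η * lam) ≤ Real.exp (2 * (η * lam)) := by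
      rw [r3]
      have := mul_le_mul_of_nonneg_right ex2 (Real.exp_pos (η * lam)).le
      linarith
    have s4 : (1 + Real.exp (η * lam)) * K ≤ Real.exp (2 * (η * lam)) * K :=
      mul_le_mul_of_nonneg_right s2 K0.le
    have s5 : Real.exp (η * lam - lam * h) * K ≤ 1 * K :=
      mul_le_mul_of_nonneg_right (r1.trans r4) K0.le
    have s6 : ‖Av f h z‖ * Real.exp (lam * z.im) ≤
        (‖f (z + I * h)‖ + ‖f (z - I * h)‖) * Real.exp (lam * z.im) :=
      mul_le_mul_of_nonneg_right k2 E0.le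
    rw [add_mul] at s6
    linarith

/-- the average is at most `2 M exp (3 lam)` -/
theorem upper {f : ℂ → ℂ} {M lam h η : ℝ} (hL : LB f M lam (1 / 2) h η) (h0 : 0 < h)
    (h1 : h ≤ 1 / 2) (M0 : 0 < M) (lam1 : 1 ≤ lam) (hη : 4 * (η * lam) ≤ lam * h)
    (z : ℂ) (hz : z ∈ ball (-I) 1) : ‖Av f h z‖ ≤ 2 * (M * Real.exp (3 * lam)) := by
  obtain ⟨h2, h3, h4⟩ := re_im_bd z _ hz
  obtain ⟨hn1, hn2⟩ := norm_le_four z h h0 h1 hz
  have hlh : lam * h ≤ lam * (1 / 2) := mul_le_mul_of_nonneg_left h1 (by linarith)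
  have u1 : ‖f (z + I * h)‖ ≤ M * Real.exp (3 * lam) := by
    refine (hL.up _ hn1).trans (mul_le_mul_of_nonneg_left (Real.exp_le_exp.mpr ?_) M0.le)
    have h5 : max |(z + I * h).im| (1 / 2) ≤ 5 / 2 := by
      rw [im_add]
      exact max_le (abs_le.mpr ⟨by linarith, by linarith⟩) (by norm_num)
    have h6 := mul_le_mul_of_nonneg_left h5 (by linarith : 0 ≤ lam)
    linarith
  have u2 : ‖f (z - I * h)‖ ≤ M * Real.exp (3 * lam) := by
    refine (hL.up _ hn2).trans (mul_le_mul_of_nonneg_left (Real.exp_le_exp.mpr ?_) M0.le)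
    have h5 : max |(z - I * h).im| (1 / 2) ≤ 5 / 2 := by
      rw [im_sub]
      exact max_le (abs_le.mpr ⟨by linarith, by linarith⟩) (by norm_num)
    have h6 := mul_le_mul_of_nonneg_left h5 (by linarith : 0 ≤ lam)
    linarith
  calc ‖Av f h z‖ ≤ ‖f (z + I * h)‖ + ‖f (z - I * h)‖ := norm_add_le _ _
    _ ≤ _ := by linarith

/-- **REGF.** -/
theorem S_REGF_proof (hP : S_PROP) (hB : S_BLA) (hN : S_NMT) : S_REGF := by
  intro h a e h0 h1 a0 a1 e0
  obtain ⟨-, -, hmono, -⟩ := hN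
  obtain ⟨η0, hη0, hprop⟩ := hP (1 / 8) (1 - a) (1 - a / 2) 5 e (by norm_num) (by linarith)
    (by linarith) (by norm_num) e0
  obtain ⟨η, hη⟩ : ∃ η : ℝ, η = min (η0 / 4) (h / 4) := ⟨_, rfl⟩
  have ηpos : 0 < η := by
    rw [hη]
    exact lt_min (by linarith) (by linarith)
  have η1 : 4 * η ≤ η0 := by
    have : η ≤ η0 / 4 := by rw [hη]; exact min_le_left _ _
    linarith
  have η2 : 4 * η ≤ h := by
    have : η ≤ h / 4 := by rw [hη]; exact min_le_right _ _
    linarith
  refine ⟨h, η, η0 / 4, max 1 (1 / η), h0, ηpos, by linarith, le_max_left _ _, ?_⟩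
  intro f M lam M0 hlam hL hcount y ya y1
  have lam1 : 1 ≤ lam := le_trans (le_max_left _ _) hlam
  have lam0 : 0 < lam := by linarith
  have lam2 : 1 ≤ η * lam := by
    have h2 : 1 / η ≤ lam := le_trans (le_max_right _ _) hlam
    have h3 : η * (1 / η) ≤ η * lam := mul_le_mul_of_nonneg_left h2 ηpos.le
    rwa [mul_one_div_cancel ηpos.ne'] at h3
  have hηh : 4 * (η * lam) ≤ lam * h := by
    have := mul_le_mul_of_nonneg_right η2 lam0.le
    linarith
  have hη4 : 4 * (η * lam) ≤ η0 * lam := by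
    have := mul_le_mul_of_nonneg_right η1 lam0.le
    linarith
  obtain ⟨R, hR⟩ : ∃ R : ℝ, R = 1 - a / 2 := ⟨_, rfl⟩
  have hR0 : 3 / 4 ≤ R := by rw [hR]; linarith
  have hR1 : R ≤ 1 := by rw [hR]; linarith
  rw [← hR] at hprop
  have hsub : ball (-I) R ⊆ ball (-I) 1 := ball_subset_ball hR1
  have hexL : ∀ z : ℂ, ‖cexp (-(I * lam * z))‖ = Real.exp (lam * z.im) := by
    intro z
    rw [norm_exp]
    congr 1
    simp
  obtain ⟨K, hK⟩ : ∃ K : ℝ, K = M * Real.exp (lam * h) := ⟨_, rfl⟩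
  have K0 : 0 < K := by
    rw [hK]
    exact mul_pos M0 (Real.exp_pos _)
  -- the average
  have hgd : Differentiable ℂ (Av f h) := by
    have d1 : Differentiable ℂ (fun z : ℂ => f (z + I * h)) :=
      hL.diff.comp (differentiable_id.add_const _)
    have d2 : Differentiable ℂ (fun z : ℂ => f (z - I * h)) :=
      hL.diff.comp (differentiable_id.sub_const _)
    exact d1.add d2
  have hc1 : (-I : ℂ) ∈ ball (-I) 1 := mem_ball_self one_pos
  have hgc : Av f h (-I) ≠ 0 :=
    nonvan hL h0 h1 M0 lam1 hηh _ hc1 (by simp only [neg_im, I_im]; norm_num)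
  obtain ⟨b, bd, bne, bge, ble, bup, -⟩ := hB (Av f h) (-I) R (by linarith) hgd hgc
  -- the zeros in the ball
  have hcnt : Nm (Av f h) (ball (-I) R) ≤ η0 / 4 * lam := by
    refine le_trans ?_ hcount
    have e1 : Nm (Av f h) (ball (-I) R) = Nm (Av f h) (ball (-I) R ∩ {v : ℂ | -(1 / 2) < v.im}) := by
      have hset : {z : ℂ | z ∈ ball (-I) R ∧ Av f h z = 0} =
          {z : ℂ | z ∈ ball (-I) R ∩ {v : ℂ | -(1 / 2) < v.im} ∧ Av f h z = 0} := by
        ext z
        simp only [mem_ofPred_eq, mem_inter_iff]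
        constructor
        · rintro ⟨h2, h3⟩
          refine ⟨⟨h2, ?_⟩, h3⟩
          by_contra h4
          exact nonvan hL h0 h1 M0 lam1 hηh z (hsub h2) (not_lt.1 h4) h3
        · rintro ⟨⟨h2, -⟩, h3⟩
          exact ⟨h2, h3⟩
      unfold Nm
      rw [hset]
    rw [e1]
    refine hmono _ _ _ hgd ⟨-I, hgc⟩ ?_ ?_
    · refine (isBounded_closedBall (x := (0 : ℂ)) (r := 2)).subset ?_
      rintro z ⟨h2, h3, h4⟩
      rw [mem_closedBall_zero_iff]
      refine (norm_le_abs_re_add_abs_im z).trans ?_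
      have h5 : |z.im| ≤ 1 := abs_le.2 ⟨by linarith, by linarith⟩
      linarith
    · rintro z ⟨h2, h3⟩
      obtain ⟨g1, g2, g3⟩ := re_im_bd z _ h2
      exact ⟨g1.le.trans hR1, h3, by rw [hR] at g3; linarith⟩
  obtain ⟨B, hBd⟩ : ∃ B : ℂ → ℂ, B = fun z => b z * cexp (-(I * lam * z)) / (K : ℂ) :=
    ⟨_, rfl⟩
  have hBn : ∀ z, ‖B z‖ = ‖b z‖ * Real.exp (lam * z.im) / K := by
    intro z
    rw [hBd]
    change ‖b z * cexp (-(I * lam * z)) / (K : ℂ)‖ = _
    rw [norm_div, norm_mul, hexL, norm_real, Real.norm_eq_abs, abs_of_pos K0]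
  have hdiff : DifferentiableOn ℂ B (ball (-I) R) := by
    rw [hBd]
    have d3 : Differentiable ℂ (fun z : ℂ => cexp (-(I * lam * z))) :=
      ((differentiable_id.const_mul (I * (lam : ℂ))).neg).cexp
    exact (bd.mul d3.differentiableOn).div_const _
  have hbS : ∀ z ∈ ball (-I) R, ‖b z‖ ≤ 2 * (M * Real.exp (3 * lam)) :=
    ble _ fun z hz => upper hL h0 h1 M0 lam1 hηh z (hsub hz)
  have hup : ∀ z ∈ ball (-I) R, B z ≠ 0 ∧ ‖B z‖ ≤ Real.exp (5 * lam) := by
    intro z hz
    obtain ⟨h2, h3, h4⟩ := re_im_bd z _ hz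
    constructor
    · rw [hBd]
      exact div_ne_zero (mul_ne_zero (bne z hz) (Complex.exp_ne_zero _))
        (ofReal_ne_zero.mpr K0.ne')
    · rw [hBn, div_le_iff₀ K0]
      have u3 := hbS z hz
      have u4 : Real.exp (lam * z.im) ≤ 1 := by
        refine Real.exp_le_one_iff.mpr ?_
        exact mul_nonpos_of_nonneg_of_nonpos lam0.le (by linarith)
      have u5 : (1 : ℝ) ≤ Real.exp (lam * h) := Real.one_le_exp (by positivity)
      have u6 : (2 : ℝ) ≤ Real.exp (2 * lam) := by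
        have := Real.add_one_le_exp (2 * lam)
        linarith
      have u7 : Real.exp (5 * lam) = Real.exp (2 * lam) * Real.exp (3 * lam) := by
        rw [← Real.exp_add]
        ring_nf
      calc ‖b z‖ * Real.exp (lam * z.im) ≤ ‖b z‖ * 1 :=
            mul_le_mul_of_nonneg_left u4 (norm_nonneg _)
        _ = ‖b z‖ := mul_one _
        _ ≤ 2 * (M * Real.exp (3 * lam)) := u3
        _ ≤ Real.exp (2 * lam) * (M * Real.exp (3 * lam)) :=
            mul_le_mul_of_nonneg_right u6 (by positivity)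
        _ = Real.exp (5 * lam) * (M * 1) := by rw [u7]; ring
        _ ≤ Real.exp (5 * lam) * (M * Real.exp (lam * h)) := by
            apply mul_le_mul_of_nonneg_left _ (Real.exp_pos _).le
            exact mul_le_mul_of_nonneg_left u5 M0.le
        _ = Real.exp (5 * lam) * K := by rw [hK]
  have hsm : ∀ z ∈ ball (-I) (1 / 8), Real.exp (-(η0 * lam)) ≤ ‖B z‖ ∧
      ‖B z‖ ≤ Real.exp (η0 * lam) := by
    intro z hz
    have hzR : z ∈ ball (-I) R := ball_subset_ball (by linarith) hz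
    obtain ⟨n1, n2⟩ := near hL h0 h1 M0 lam1 hηh lam2 z hz
    rw [← hK] at n1 n2
    have E0 : 0 < Real.exp (lam * z.im) := Real.exp_pos _
    rw [hBn, le_div_iff₀ K0, div_le_iff₀ K0]
    constructor
    · have s1 : Real.exp (-(η0 * lam)) ≤ Real.exp (-(2 * (η * lam))) :=
        Real.exp_le_exp.mpr (by linarith)
      exact ((mul_le_mul_of_nonneg_right s1 K0.le).trans n1).trans
        (mul_le_mul_of_nonneg_right (bge z hzR) E0.le)
    · have hρ : ∀ w ∈ ball (-I) R, Av f h w = 0 → 3 / 8 ≤ ‖z - w‖ := by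
        intro w hw hw0
        have g1 : -(1 / 2) < w.im := by
          by_contra h4
          exact nonvan hL h0 h1 M0 lam1 hηh w (hsub hw) (not_lt.1 h4) hw0
        obtain ⟨-, -, g2⟩ := re_im_bd z _ hz
        have g3 := abs_im_le_norm (z - w)
        rw [sub_im] at g3
        have g4 := neg_abs_le (z.im - w.im)
        linarith
      have g1 := bup (3 / 8) (by norm_num) (by linarith) z hzR hρ
      have g2 : (2 * R / (3 / 8)) ^ (Nm (Av f h) (ball (-I) R)) ≤ Real.exp (η0 / 2 * lam) := by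
        have g3 : (1 : ℝ) ≤ 2 * R / (3 / 8) := by
          rw [le_div_iff₀ (by norm_num)]
          linarith
        have g4 : 2 * R / (3 / 8) ≤ Real.exp 2 := by
          have g5 : (2.7182818283 : ℝ) < Real.exp 1 := Real.exp_one_gt_d9
          have g6 : Real.exp 2 = Real.exp 1 * Real.exp 1 := by
            rw [← Real.exp_add]
            norm_num
          rw [div_le_iff₀ (by norm_num), g6]
          have g7 : (2.7 : ℝ) * 2.7 ≤ Real.exp 1 * Real.exp 1 :=
            mul_le_mul (by linarith) (by linarith) (by norm_num) (Real.exp_pos _).le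
          linarith
        calc (2 * R / (3 / 8)) ^ (Nm (Av f h) (ball (-I) R))
            ≤ (2 * R / (3 / 8)) ^ (η0 / 4 * lam) :=
              Real.rpow_le_rpow_of_exponent_le g3 hcnt
          _ ≤ (Real.exp 2) ^ (η0 / 4 * lam) :=
              Real.rpow_le_rpow (by linarith) g4 (by positivity)
          _ = Real.exp (η0 / 2 * lam) := by
              rw [← Real.exp_mul]
              congr 1
              ring
      have g3 : Real.exp (2 * (η * lam)) * Real.exp (η0 / 2 * lam) ≤ Real.exp (η0 * lam) := by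
        rw [← Real.exp_add]
        exact Real.exp_le_exp.mpr (by linarith)
      calc ‖b z‖ * Real.exp (lam * z.im)
          ≤ (‖Av f h z‖ * (2 * R / (3 / 8)) ^ (Nm (Av f h) (ball (-I) R))) *
            Real.exp (lam * z.im) := mul_le_mul_of_nonneg_right g1 E0.le
        _ ≤ (‖Av f h z‖ * Real.exp (η0 / 2 * lam)) * Real.exp (lam * z.im) := by
            refine mul_le_mul_of_nonneg_right ?_ E0.le
            exact mul_le_mul_of_nonneg_left g2 (norm_nonneg _)
        _ = (‖Av f h z‖ * Real.exp (lam * z.im)) * Real.exp (η0 / 2 * lam) := by ring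
        _ ≤ (Real.exp (2 * (η * lam)) * K) * Real.exp (η0 / 2 * lam) :=
            mul_le_mul_of_nonneg_right n2 (Real.exp_pos _).le
        _ = (Real.exp (2 * (η * lam)) * Real.exp (η0 / 2 * lam)) * K := by ring
        _ ≤ Real.exp (η0 * lam) * K := mul_le_mul_of_nonneg_right g3 K0.le
  have hnorm : ‖-(I * (y : ℂ)) - -I‖ = 1 - y := by
    have e1 : -(I * (y : ℂ)) - -I = I * ((1 - y : ℝ) : ℂ) := by
      push_cast
      ring
    rw [e1, norm_mul, norm_I, one_mul, norm_real, Real.norm_eq_abs, abs_of_nonneg (by linarith)]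
  have hfin := (hprop B (-I) lam lam1 hdiff hup hsm (-(I * y)) (by rw [hnorm]; linarith)).2
  have hyR : -(I * (y : ℂ)) ∈ ball (-I) R := by
    rw [mem_ball_iff_norm, hnorm, hR]
    linarith
  have him : (-(I * (y : ℂ))).im = -y := by simp
  rw [hBn, div_le_iff₀ K0, him] at hfin
  have E1 : Real.exp (lam * -y) * Real.exp (lam * y) = 1 := by
    rw [← Real.exp_add, ← Real.exp_zero]
    ring_nf
  have E2 : 0 < Real.exp (lam * y) := Real.exp_pos _
  have g4 := mul_le_mul_of_nonneg_right hfin E2.le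
  rw [mul_assoc ‖b (-(I * y))‖, E1, mul_one] at g4
  refine (bge _ hyR).trans (le_trans g4 (le_of_eq ?_))
  rw [hK, mul_left_comm, mul_assoc, ← Real.exp_add, ← Real.exp_add]
  ring_nf

end

end Pool.Agent.H627.AV
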